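import Pool.Agent.Helper80.EC_F.Goals
import Pool.Agent.Helper80.EC_F.Tool

set_option autoImplicit false

open MeasureTheory Filter Topology Set

namespace EC237.PF.PkR12

lemma abs_chi_le (m : ℤ) : |chi m| ≤ 1 := by
  unfold chi
  split_ifs <;> simp

/-- the general term -/
noncomputable def tr (A c : ℝ) (p : ℕ × ℕ) (z : ℝ) : ℝ :=
  A * (chi ((p.1:ℤ) + 1) * ((p.1:ℝ) + 1) ^ 2) *
    (z ^ 4 * Real.exp (-(c * ((p.1:ℝ) + 1) * ((p.2:ℝ) + 1) * z)))

lemma summ3 : Summable fun n : ℕ => 1 / ((n:ℝ) + 1) ^ 3 := by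
  have h := (summable_nat_add_iff 1).mpr (Real.summable_one_div_nat_pow.mpr (by norm_num : 1 < 3))
  simpa using h

lemma summ5 : Summable fun n : ℕ => 1 / ((n:ℝ) + 1) ^ 5 := by
  have h := (summable_nat_add_iff 1).mpr (Real.summable_one_div_nat_pow.mpr (by norm_num : 1 < 5))
  simpa using h

theorem thm (h1 : EC237.C20x) (h2 : G_L3) (h3 : G_GAM) (h4 : G_RINV) : EC237.PF.G_R12 := by
  intro k hk
  have hk0 : (0:ℝ) < k := by exact_mod_cast hk
  have hpi := Real.pi_pos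
  have hs3 : (0:ℝ) < Real.sqrt 3 := Real.sqrt_pos.mpr (by norm_num)
  have hss : Real.sqrt 3 * Real.sqrt 3 = 3 := Real.mul_self_sqrt (by norm_num)
  set c : ℝ := 4 * Real.pi / (3 * k) with hc
  have hc0 : 0 < c := by positivity
  set A0 : ℝ := 8 / (81 * Real.sqrt 3 * (k:ℝ) ^ 3) with hA0
  set A : ℝ := -(9 * A0) with hA
  -- integrability of the terms
  have hint : ∀ p : ℕ × ℕ, IntegrableOn (tr A c p) (Ioi 0) := by
    intro p
    have := (h3 4 (c * ((p.1:ℝ) + 1) * ((p.2:ℝ) + 1)) (by positivity)).1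
    exact this.const_mul _
  have hval : ∀ p : ℕ × ℕ, ∫ z in Ioi (0:ℝ), z ^ 4 *
      Real.exp (-(c * ((p.1:ℝ) + 1) * ((p.2:ℝ) + 1) * z)) =
      24 / (c * ((p.1:ℝ) + 1) * ((p.2:ℝ) + 1)) ^ 5 := by
    intro p
    have := (h3 4 (c * ((p.1:ℝ) + 1) * ((p.2:ℝ) + 1)) (by positivity)).2
    rw [this]
    norm_num [Nat.factorial]
  have hnorm : ∀ p : ℕ × ℕ, ∫ z in Ioi (0:ℝ), ‖tr A c p z‖ =
      |A| * (|chi ((p.1:ℤ) + 1)| * ((p.1:ℝ) + 1) ^ 2) *
        (24 / (c * ((p.1:ℝ) + 1) * ((p.2:ℝ) + 1)) ^ 5) := by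
    intro p
    rw [← hval p, ← integral_const_mul]
    refine setIntegral_congr_fun measurableSet_Ioi fun z hz => ?_
    have hz' : (0:ℝ) < z := hz
    simp only [tr, norm_mul, Real.norm_eq_abs]
    rw [abs_of_pos (pow_pos hz' 4), abs_of_pos (Real.exp_pos _),
      abs_of_nonneg (by positivity : (0:ℝ) ≤ ((p.1:ℝ) + 1) ^ 2)]
  have hsum : Summable fun p : ℕ × ℕ => ∫ z in Ioi (0:ℝ), ‖tr A c p z‖ := by
    have hs := (summ3.mul_of_nonneg summ5 (fun n => by positivity) (fun n => by positivity)).mul_left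
      (|A| * (24 / c ^ 5))
    refine Summable.of_nonneg_of_le (fun p => ?_) (fun p => ?_) hs
    · exact setIntegral_nonneg measurableSet_Ioi fun z _ => norm_nonneg _
    · rw [hnorm p]
      have hch := abs_chi_le ((p.1:ℤ) + 1)
      calc |A| * (|chi ((p.1:ℤ) + 1)| * ((p.1:ℝ) + 1) ^ 2) *
            (24 / (c * ((p.1:ℝ) + 1) * ((p.2:ℝ) + 1)) ^ 5)
          ≤ |A| * (1 * ((p.1:ℝ) + 1) ^ 2) *
            (24 / (c * ((p.1:ℝ) + 1) * ((p.2:ℝ) + 1)) ^ 5) := by gcongr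
        _ = |A| * (24 / c ^ 5) * (1 / ((p.1:ℝ) + 1) ^ 3 * (1 / ((p.2:ℝ) + 1) ^ 5)) := by
            field_simp
  have hEint : IntegrableOn (fun z => ∑' p, tr A c p z) (Ioi 0) := integrable_tsum hint hsum
  have hEval : ∫ z in Ioi (0:ℝ), ∑' p, tr A c p z = -((k:ℝ) ^ 2 * zeta5 / (12 * Real.pi ^ 2)) := by
    rw [← integral_tsum_of_summable_integral_norm hint hsum]
    have e1 : ∀ p : ℕ × ℕ, ∫ z in Ioi (0:ℝ), tr A c p z =
        (A * (24 / c ^ 5)) * (chi ((p.1:ℤ) + 1) / ((p.1:ℝ) + 1) ^ 3 * (1 / ((p.2:ℝ) + 1) ^ 5)) := by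
      intro p
      simp only [tr]
      rw [integral_const_mul, hval p]
      field_simp
    simp_rw [e1]
    rw [tsum_mul_left]
    have hf : Summable fun n : ℕ => ‖chi ((n:ℤ) + 1) / ((n:ℝ) + 1) ^ 3‖ := by
      refine Summable.of_nonneg_of_le (fun n => norm_nonneg _) (fun n => ?_) summ3
      rw [norm_div, Real.norm_eq_abs, Real.norm_eq_abs,
        abs_of_pos (by positivity : (0:ℝ) < ((n:ℝ) + 1) ^ 3)]
      have := abs_chi_le ((n:ℤ) + 1)
      gcongr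
    have hg : Summable fun n : ℕ => ‖1 / ((n:ℝ) + 1) ^ 5‖ := summ5.norm
    rw [← tsum_mul_tsum_of_summable_norm hf hg, h2.tsum_eq]
    change A * (24 / c ^ 5) * (4 * Real.pi ^ 3 / (81 * Real.sqrt 3) * zeta5) = _
    rw [hA, hA0, hc]
    have hs2 : Real.sqrt 3 ^ 2 = 3 := Real.sq_sqrt (by norm_num)
    field_simp
    rw [hs2]
    ring
  have hfin := h4 (fun y => XS (Real.exp (-(Real.pi * y)) ^ k) / y ^ 3)
    (fun z => ∑' p, tr A c p z) (Polynomial.C A0 * Polynomial.X ^ 4) ?_ hEint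
  · rw [hEval] at hfin
    exact hfin
  · intro y hy
    have ht : (0:ℝ) < 2 / (3 * k * y) := by positivity
    have h := h1 (2 / (3 * k * y)) ht
    have e2 : Real.exp (-(Real.pi * y)) ^ k = Real.exp (-(2 * Real.pi / (3 * (2 / (3 * k * y))))) := by
      rw [← Real.exp_nat_mul]
      congr 1
      field_simp
    rw [e2, h]
    have e3 : bS (Real.exp (-(2 * Real.pi * (2 / (3 * k * y))))) =
        1 - 9 * ∑' p : ℕ × ℕ, chi ((p.1:ℤ) + 1) * ((p.1:ℝ) + 1) ^ 2 *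
          Real.exp (-(c * ((p.1:ℝ) + 1) * ((p.2:ℝ) + 1) * y⁻¹)) := by
      unfold bS
      congr 2
      refine tsum_congr fun p => ?_
      congr 1
      rw [← Real.exp_nat_mul]
      congr 1
      rw [hc]
      push_cast
      field_simp
      ring
    have e4 : ∑' p, tr A c p y⁻¹ = A * (y⁻¹) ^ 4 * ∑' p : ℕ × ℕ, chi ((p.1:ℤ) + 1) *
        ((p.1:ℝ) + 1) ^ 2 * Real.exp (-(c * ((p.1:ℝ) + 1) * ((p.2:ℝ) + 1) * y⁻¹)) := by
      rw [← tsum_mul_left]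
      refine tsum_congr fun p => ?_
      simp only [tr]
      ring
    rw [e3, e4]
    generalize (∑' p : ℕ × ℕ, chi ((p.1:ℤ) + 1) * ((p.1:ℝ) + 1) ^ 2 *
          Real.exp (-(c * ((p.1:ℝ) + 1) * ((p.2:ℝ) + 1) * y⁻¹))) = S
    simp only [Polynomial.eval_mul, Polynomial.eval_C, Polynomial.eval_pow, Polynomial.eval_X]
    rw [hA, hA0]
    field_simp
    ring

end EC237.PF.PkR12
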